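import Pool.Agent.W24.F

set_option autoImplicit false

/-! Existence of the Steiner system `S(5,8,24)`: the explicit octads. -/

namespace Pool.Agent.W24

open Finset

/-- all nonzero codewords have weight at least 8 -/
theorem weights : (List.range 4096).all (fun c => c == 0 || Nat.ble 8 (pc (enc c 0 basis))) = true := by
  decide +kernel

theorem coords_lt : coords.all (fun c => Nat.blt c 4096) = true := by decide +kernel

theorem enc_xor (a b : ℕ) : ∀ (l : List ℕ) (i : ℕ),
    enc (Nat.xor a b) i l = Nat.xor (enc a i l) (enc b i l) := by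
  intro l
  induction l with
  | nil =>
    intro i
    unfold enc
    rfl
  | cons x l ih =>
    intro i
    unfold enc
    rw [ih (i + 1)]
    have h3 : Nat.testBit (Nat.xor a b) i = (Nat.testBit a i ^^ Nat.testBit b i) := Nat.testBit_xor a b i
    rw [h3]
    change (cond (Nat.testBit a i ^^ Nat.testBit b i) x 0) ^^^ (enc a (i + 1) l ^^^ enc b (i + 1) l) =
      (cond (Nat.testBit a i) x 0 ^^^ enc a (i + 1) l) ^^^ (cond (Nat.testBit b i) x 0 ^^^ enc b (i + 1) l)
    have h4 : (cond (Nat.testBit a i ^^ Nat.testBit b i) x 0 : ℕ) =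
        (cond (Nat.testBit a i) x 0) ^^^ (cond (Nat.testBit b i) x 0) := by
      cases Nat.testBit a i <;> cases Nat.testBit b i <;> simp
    rw [h4]
    ac_rfl

theorem std_card {B : Finset (Fin 24)} (hB : B ∈ std) : B.card = 8 := by
  unfold std at hB
  obtain ⟨m, hm, rfl⟩ := mem_image.1 hB
  rw [card_ms]
  simpa using List.all_eq_true.1 octads_pc m (List.mem_toFinset.1 hm)

theorem std_inter {B C : Finset (Fin 24)} (hB : B ∈ std) (hC : C ∈ std) (hne : B ≠ C) :
    (B ∩ C).card ≤ 4 := by
  have hB8 := std_card hB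
  have hC8 := std_card hC
  unfold std at hB hC
  obtain ⟨m, hm, rfl⟩ := mem_image.1 hB
  obtain ⟨n, hn, rfl⟩ := mem_image.1 hC
  have hm' := List.mem_toFinset.1 hm
  have hn' := List.mem_toFinset.1 hn
  unfold octads at hm' hn'
  rw [List.mem_map] at hm' hn'
  obtain ⟨a, ha, rfl⟩ := hm'
  obtain ⟨b, hb, rfl⟩ := hn'
  have ha' : a < 4096 := Nat.le_of_ble_eq_true (List.all_eq_true.1 coords_lt a ha)
  have hb' : b < 4096 := Nat.le_of_ble_eq_true (List.all_eq_true.1 coords_lt b hb)
  have hab : a ≠ b := by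
    rintro rfl
    exact hne rfl
  have hx : Nat.xor a b < 4096 := Nat.xor_lt_two_pow (n := 12) ha' hb'
  have hx0 : Nat.xor a b ≠ 0 := by
    intro h0
    apply hab
    apply Nat.eq_of_testBit_eq
    intro i
    have h3 : Nat.testBit (Nat.xor a b) i = (Nat.testBit a i ^^ Nat.testBit b i) := Nat.testBit_xor a b i
    rw [h0, Nat.zero_testBit] at h3
    cases h4 : Nat.testBit a i <;> cases h5 : Nat.testBit b i <;> simp_all
  have h1 := List.all_eq_true.1 weights (Nat.xor a b) (List.mem_range.2 hx)
  rw [Bool.or_eq_true] at h1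
  have h2 : 8 ≤ pc (enc (Nat.xor a b) 0 basis) := by
    rcases h1 with h1 | h1
    · exact absurd (by simpa using h1) hx0
    · exact Nat.le_of_ble_eq_true h1
  rw [enc_xor, ← card_ms, ms_xor] at h2
  have h3 : symmDiff (ms (enc a 0 basis)) (ms (enc b 0 basis)) =
      (ms (enc a 0 basis) \ ms (enc b 0 basis)) ∪ (ms (enc b 0 basis) \ ms (enc a 0 basis)) := rfl
  have h4 : Disjoint (ms (enc a 0 basis) \ ms (enc b 0 basis))
      (ms (enc b 0 basis) \ ms (enc a 0 basis)) := by
    rw [disjoint_left]
    intro x hx hy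
    rw [mem_sdiff] at hx hy
    exact hx.2 hy.1
  rw [h3, card_union_of_disjoint h4] at h2
  have h5 := card_sdiff_add_card_inter (ms (enc a 0 basis)) (ms (enc b 0 basis))
  have h6 := card_sdiff_add_card_inter (ms (enc b 0 basis)) (ms (enc a 0 basis))
  rw [inter_comm (ms (enc b 0 basis))] at h6
  omega

/-- **The explicit octads form an `S(5,8,24)`.** -/
theorem w24_std : W24 std := by
  refine ⟨Fintype.card_fin 24, fun B hB => std_card hB, ?_⟩
  have hle : ∀ S ∈ powersetCard 5 (univ : Finset (Fin 24)), bc std S ≤ 1 := by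
    intro S hS
    have hS5 := (mem_powersetCard.1 hS).2
    unfold bc
    rw [card_le_one]
    intro B hB C hC
    rw [mem_filter] at hB hC
    by_contra hne
    have h1 := std_inter hB.1 hC.1 hne
    have h2 := card_le_card (subset_inter hB.2 hC.2)
    omega
  have hsum : ∑ S ∈ powersetCard 5 (univ : Finset (Fin 24)), bc std S =
      ∑ S ∈ powersetCard 5 (univ : Finset (Fin 24)), 1 := by
    rw [← sum_choose0 std univ 5]
    have h1 : ∀ C ∈ std, ((univ ∩ C).card.choose 5) = 56 := by
      intro C hC
      rw [univ_inter, std_card hC]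
      rfl
    rw [sum_congr rfl h1, sum_const, card_std, sum_const, card_powersetCard, card_univ,
      Fintype.card_fin]
    decide
  have heq := (sum_eq_sum_iff_of_le hle).1 hsum
  intro S hS
  have h1 := heq S (mem_powersetCard.2 ⟨subset_univ _, hS⟩)
  unfold bc at h1
  rw [card_eq_one] at h1
  obtain ⟨B, hB⟩ := h1
  have h2 : B ∈ std.filter (fun B => S ⊆ B) := by
    rw [hB]
    exact mem_singleton_self B
  rw [mem_filter] at h2
  refine ⟨B, h2, ?_⟩
  intro C hC
  have h3 : C ∈ std.filter (fun B => S ⊆ B) := mem_filter.2 hC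
  rw [hB, mem_singleton] at h3
  exact h3

end Pool.Agent.W24
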