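import Mathlib

set_option autoImplicit false

/-! Counting in a Steiner system `S(5,8,24)`: block intersection numbers. -/

namespace Pool.Agent.W24

open Finset

/-- `Bs` is the block set of a Steiner system `S(5,8,24)` on the finite set `Ω`. -/
structure W24 {Ω : Type*} [Fintype Ω] [DecidableEq Ω] (Bs : Finset (Finset Ω)) : Prop where
  card_pts : Fintype.card Ω = 24
  card_block : ∀ B ∈ Bs, B.card = 8
  cover : ∀ S : Finset Ω, S.card = 5 → ∃! B, B ∈ Bs ∧ S ⊆ B

variable {Ω : Type*} [Fintype Ω] [DecidableEq Ω] {Bs : Finset (Finset Ω)}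

/-- the number of blocks containing `S` -/
def bc (Bs : Finset (Finset Ω)) (S : Finset Ω) : ℕ := (Bs.filter (fun B => S ⊆ B)).card

theorem bc5 (h : W24 Bs) {S : Finset Ω} (hS : S.card = 5) : bc Bs S = 1 := by
  obtain ⟨B, ⟨hB, hSB⟩, hu⟩ := h.cover S hS
  unfold bc
  rw [card_eq_one]
  refine ⟨B, ?_⟩
  ext C
  simp only [mem_filter, mem_singleton]
  constructor
  · intro hC
    exact hu C hC
  · rintro rfl
    exact ⟨hB, hSB⟩

theorem eq_of_five (h : W24 Bs) {S B C : Finset Ω} (hS : S.card = 5) (hB : B ∈ Bs) (hC : C ∈ Bs)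
    (hSB : S ⊆ B) (hSC : S ⊆ C) : B = C := by
  obtain ⟨D, _, hu⟩ := h.cover S hS
  rw [hu B ⟨hB, hSB⟩, hu C ⟨hC, hSC⟩]

theorem inter_le (h : W24 Bs) {B C : Finset Ω} (hB : B ∈ Bs) (hC : C ∈ Bs) (hne : B ≠ C) :
    (B ∩ C).card ≤ 4 := by
  by_contra hlt
  obtain ⟨S, hS, hS5⟩ := exists_subset_card_eq (show 5 ≤ (B ∩ C).card by omega)
  exact hne (eq_of_five h hS5 hB hC (hS.trans inter_subset_left) (hS.trans inter_subset_right))

theorem bc_step (h : W24 Bs) {j L : ℕ} (hj : j ≤ 8) (hL : ∀ S : Finset Ω, S.card = j + 1 → bc Bs S = L)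
    {S : Finset Ω} (hS : S.card = j) : (8 - j) * bc Bs S = (24 - j) * L := by
  have h1 : ∑ x ∈ Sᶜ, bc Bs (insert x S) = (24 - j) * L := by
    rw [sum_congr rfl fun x hx => hL (insert x S) (by
      rw [card_insert_of_notMem (by simpa using hx), hS])]
    rw [sum_const, card_compl, h.card_pts, hS, smul_eq_mul]
  rw [← h1]
  unfold bc
  simp only [card_filter]
  rw [sum_comm, mul_sum]
  refine sum_congr rfl fun B hB => ?_
  by_cases hSB : S ⊆ B
  · rw [if_pos hSB, mul_one]
    have h2 : ∀ x ∈ Sᶜ, (if insert x S ⊆ B then 1 else 0) = if x ∈ B then 1 else 0 := by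
      intro x _
      simp only [insert_subset_iff, hSB, and_true]
    rw [sum_congr rfl h2, ← card_filter]
    have h3 : (Sᶜ).filter (fun x => x ∈ B) = B \ S := by
      ext x
      simp only [mem_filter, mem_compl, mem_sdiff]
      tauto
    rw [h3, card_sdiff_of_subset hSB, h.card_block B hB, hS]
  · rw [if_neg hSB, mul_zero]
    symm
    apply sum_eq_zero
    intro x _
    rw [if_neg]
    intro h4
    exact hSB ((subset_insert x S).trans h4)

theorem bc4 (h : W24 Bs) {S : Finset Ω} (hS : S.card = 4) : bc Bs S = 5 := by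
  have := bc_step h (j := 4) (L := 1) (by norm_num) (fun S hS => bc5 h hS) hS
  omega

theorem bc3 (h : W24 Bs) {S : Finset Ω} (hS : S.card = 3) : bc Bs S = 21 := by
  have := bc_step h (j := 3) (L := 5) (by norm_num) (fun S hS => bc4 h hS) hS
  omega

theorem bc2 (h : W24 Bs) {S : Finset Ω} (hS : S.card = 2) : bc Bs S = 77 := by
  have := bc_step h (j := 2) (L := 21) (by norm_num) (fun S hS => bc3 h hS) hS
  omega

theorem bc1 (h : W24 Bs) {S : Finset Ω} (hS : S.card = 1) : bc Bs S = 253 := by
  have := bc_step h (j := 1) (L := 77) (by norm_num) (fun S hS => bc2 h hS) hS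
  omega

theorem card_blocks (h : W24 Bs) : Bs.card = 759 := by
  have := bc_step h (j := 0) (L := 253) (by norm_num) (fun S hS => bc1 h hS) (S := ∅) rfl
  have h2 : bc Bs ∅ = Bs.card := by
    unfold bc
    simp
  omega

/-- Double counting of pairs `(T, C)` with `T ⊆ W ∩ C`, `|T| = j`, `P ⊆ C`. -/
theorem sum_choose (Bs : Finset (Finset Ω)) (P W : Finset Ω) (j : ℕ) :
    ∑ C ∈ Bs.filter (fun C => P ⊆ C), (W ∩ C).card.choose j =
      ∑ T ∈ powersetCard j W, bc Bs (P ∪ T) := by
  unfold bc
  simp only [card_filter]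
  rw [sum_comm, sum_filter]
  refine sum_congr rfl fun C _ => ?_
  by_cases hP : P ⊆ C
  · rw [if_pos hP, ← card_powersetCard]
    have h1 : powersetCard j (W ∩ C) = (powersetCard j W).filter (fun T => T ⊆ C) := by
      ext T
      simp only [mem_powersetCard, subset_inter_iff, mem_filter]
      tauto
    rw [h1, card_filter]
    refine sum_congr rfl fun T _ => ?_
    simp only [union_subset_iff, hP, true_and]
  · rw [if_neg hP]
    symm
    apply sum_eq_zero
    intro T _
    rw [if_neg]
    intro h2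
    exact hP (subset_union_left.trans h2)

theorem sum_choose0 (Bs : Finset (Finset Ω)) (W : Finset Ω) (j : ℕ) :
    ∑ C ∈ Bs, (W ∩ C).card.choose j = ∑ T ∈ powersetCard j W, bc Bs T := by
  have := sum_choose Bs ∅ W j
  simpa using this

theorem sum_block (h : W24 Bs) {B : Finset Ω} (hB : B ∈ Bs) (j L : ℕ)
    (hL : ∀ S : Finset Ω, S.card = j → bc Bs S = L) :
    ∑ C ∈ Bs.erase B, (B ∩ C).card.choose j + Nat.choose 8 j = Nat.choose 8 j * L := by
  have h1 := sum_choose0 Bs B j
  rw [sum_congr rfl fun T hT => hL T (mem_powersetCard.1 hT).2, sum_const, card_powersetCard,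
    h.card_block B hB, smul_eq_mul, ← add_sum_erase _ _ hB, inter_self, h.card_block B hB] at h1
  omega

/-- Two blocks meet in an even number of points. -/
theorem even_inter (h : W24 Bs) {B C : Finset Ω} (hB : B ∈ Bs) (hC : C ∈ Bs) :
    Even (B ∩ C).card := by
  by_cases hne : B = C
  · rw [← hne, inter_self, h.card_block B hB]
    decide
  have s1 := sum_block h hB 1 253 (fun S hS => bc1 h hS)
  have s2 := sum_block h hB 2 77 (fun S hS => bc2 h hS)
  have s3 := sum_block h hB 3 21 (fun S hS => bc3 h hS)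
  have s4 := sum_block h hB 4 5 (fun S hS => bc4 h hS)
  have e1 : Nat.choose 8 1 = 8 := rfl
  have e2 : Nat.choose 8 2 = 28 := rfl
  have e3 : Nat.choose 8 3 = 56 := rfl
  have e4 : Nat.choose 8 4 = 70 := rfl
  rw [e1] at s1
  rw [e2] at s2
  rw [e3] at s3
  rw [e4] at s4
  have key : ∀ D ∈ Bs.erase B, (B ∩ D).card % 2 + 2 * (B ∩ D).card.choose 2 +
      8 * (B ∩ D).card.choose 4 = (B ∩ D).card.choose 1 + 4 * (B ∩ D).card.choose 3 := by
    intro D hD
    have h5 := inter_le h hB (mem_of_mem_erase hD) (ne_of_mem_erase hD).symm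
    generalize (B ∩ D).card = a at h5
    interval_cases a <;> rfl
  have hsum := sum_congr (rfl : Bs.erase B = Bs.erase B) key
  simp only [sum_add_distrib, ← mul_sum] at hsum
  have hz : ∑ D ∈ Bs.erase B, (B ∩ D).card % 2 = 0 := by omega
  rw [sum_eq_zero_iff] at hz
  have := hz C (mem_erase.2 ⟨fun h => hne h.symm, hC⟩)
  exact Nat.even_iff.2 this

/-- An 8-set that meets all blocks in an even number of points is a block. -/
theorem mem_of_even (h : W24 Bs) {W : Finset Ω} (hW : W.card = 8)
    (hev : ∀ C ∈ Bs, Even (W ∩ C).card) : W ∈ Bs := by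
  by_contra hnot
  have h1 := sum_choose0 Bs W 5
  rw [sum_congr rfl fun T hT => bc5 h (mem_powersetCard.1 hT).2, sum_const, card_powersetCard, hW,
    smul_eq_mul, mul_one] at h1
  have h2 : ∀ C ∈ Bs, 6 ∣ (W ∩ C).card.choose 5 := by
    intro C hC
    have h3 : (W ∩ C).card ≤ 8 := by
      rw [← hW]
      exact card_le_card inter_subset_left
    have h4 : (W ∩ C).card ≠ 8 := by
      intro h5
      have h6 : W ∩ C = W := eq_of_subset_of_card_le inter_subset_left (by omega)
      have h7 : W ∩ C = C := eq_of_subset_of_card_le inter_subset_right (by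
        rw [h.card_block C hC]; omega)
      apply hnot
      rw [← h6, h7]
      exact hC
    have h5 := hev C hC
    generalize (W ∩ C).card = a at h3 h4 h5
    interval_cases a
    all_goals first | (exact absurd rfl h4) | decide | (exact absurd h5 (by decide))
  have h3 := dvd_sum h2
  rw [h1] at h3
  revert h3
  decide

/-- Through three points outside a block `O` there are exactly two blocks meeting `O` in four points. -/
theorem two_blocks (h : W24 Bs) {O P : Finset Ω} (hO : O ∈ Bs) (hP : P.card = 3)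
    (hPO : Disjoint P O) : ((Bs.filter (fun C => P ⊆ C)).filter (fun C => (O ∩ C).card = 4)).card = 2 := by
  have s1 := sum_choose Bs P O 1
  have s2 := sum_choose Bs P O 2
  have hun : ∀ j, ∀ T ∈ powersetCard j O, (P ∪ T).card = 3 + j := by
    intro j T hT
    rw [mem_powersetCard] at hT
    rw [card_union_of_disjoint (hPO.mono_right hT.1), hP, hT.2]
  rw [sum_congr rfl fun T hT => bc4 h (hun 1 T hT), sum_const, card_powersetCard,
    h.card_block O hO, smul_eq_mul] at s1
  rw [sum_congr rfl fun T hT => bc5 h (hun 2 T hT), sum_const, card_powersetCard,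
    h.card_block O hO, smul_eq_mul] at s2
  have e1 : Nat.choose 8 1 = 8 := rfl
  have e2 : Nat.choose 8 2 = 28 := rfl
  rw [e1] at s1
  rw [e2] at s2
  have key : ∀ C ∈ Bs.filter (fun C => P ⊆ C), 2 * (O ∩ C).card.choose 2 =
      (O ∩ C).card.choose 1 + 8 * (if (O ∩ C).card = 4 then 1 else 0) := by
    intro C hC
    rw [mem_filter] at hC
    have hne : O ≠ C := by
      rintro rfl
      have h5 : P = ∅ := by
        have := disjoint_self.1 (hPO.mono_right hC.2)
        simpa using this
      rw [h5] at hP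
      simp at hP
    have h5 := inter_le h hO hC.1 hne
    have h6 := even_inter h hO hC.1
    generalize (O ∩ C).card = a at h5 h6
    interval_cases a
    all_goals first | rfl | (exact absurd h6 (by decide))
  have hsum := sum_congr (rfl : Bs.filter (fun C => P ⊆ C) = Bs.filter (fun C => P ⊆ C)) key
  simp only [sum_add_distrib, ← mul_sum] at hsum
  rw [card_filter]
  omega

end Pool.Agent.W24
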