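import Pool.Agent.W24.T

set_option autoImplicit false

/-! Facts on the tables, and completeness of the search. -/

namespace Pool.Agent.W24

open Finset

theorem dfs_true : dfs [] triples = true := by decide +kernel

theorem octads_pc : octads.all (fun m => pc m == 8) = true := by decide +kernel

theorem octads_lt : octads.all (fun m => Nat.blt m (2 ^ 24)) = true := by decide +kernel

theorem octads_incr : incr octads = true := by decide +kernel

theorem octads_len : octads.length = 759 := by decide +kernel

theorem c1_len : c1.length = 15 := by decide +kernel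

theorem c1_nodup : c1.Nodup := by decide +kernel

theorem masks4_nodup : masks4.Nodup := by decide +kernel

theorem cover_triple : masks4.all (fun m => triples.any (fun t => sub t m)) = true := by decide +kernel

theorem share_ne : c1.all (fun a => c2.all (fun b => share a b != 2 && share b a != 2)) = true := by
  decide +kernel

theorem share_self : c1.all (fun a => share a a != 2) = true := by decide +kernel

theorem sw_class : c2.all (fun b => c1.contains (masks4.filter (fun m => b.contains (sw m)))) = true := by
  decide +kernel

theorem basis_gen : basis.all (fun b => b == 255 || masks4.any (fun q => gen q == b)) = true := by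
  decide +kernel

theorem gen_pc : masks4.all (fun q => pc (gen q) == 8) = true := by decide +kernel

theorem gen_bits : masks4.all (fun q => (List.range 24).all (fun i => !(Nat.testBit (gen q) i) ||
    ((Nat.blt i 8 && Nat.testBit q i) || (i == 8 || (Nat.ble 9 i && (c1.getD (i - 9) []).contains q))))) =
    true := by decide +kernel

theorem bits255 : (List.range 24).all (fun i => Nat.testBit 255 i == Nat.blt i 8) = true := by
  decide +kernel

theorem incr_pairwise : ∀ l : List ℕ, incr l = true → l.Pairwise (· < ·)
  | [], _ => List.Pairwise.nil
  | [a], _ => List.pairwise_singleton _ a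
  | a :: b :: l, h => by
    unfold incr at h
    rw [Bool.and_eq_true] at h
    have h1 := incr_pairwise (b :: l) h.2
    have hab : a < b := Nat.le_of_ble_eq_true h.1
    rw [List.pairwise_cons]
    refine ⟨fun c hc => ?_, h1⟩
    rcases List.mem_cons.1 hc with rfl | hc
    · exact hab
    · exact hab.trans ((List.pairwise_cons.1 h1).1 c hc)

theorem octads_nodup : octads.Nodup := (incr_pairwise _ octads_incr).imp (fun h => Nat.ne_of_lt h)

/-- Completeness of the search. -/
theorem dfs_sound (P : ℕ → Prop) [DecidablePred P]
    (hex : ∀ t ∈ triples, ∃ m ∈ masks4, sub t m = true ∧ P m)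
    (huniq : ∀ t ∈ triples, ∀ m ∈ masks4, ∀ m' ∈ masks4, sub t m = true → sub t m' = true →
      P m → P m' → m = m') :
    ∀ rest chosen : List ℕ, (∀ c ∈ chosen, c ∈ masks4 ∧ P c) → (∀ t ∈ rest, t ∈ triples) →
      (∀ t ∈ triples, t ∈ rest ∨ ∃ c ∈ chosen, sub t c = true) → dfs chosen rest = true →
        masks4.filter (fun m => decide (P m)) ∈ c1 ++ c2 := by
  intro rest
  induction rest with
  | nil =>
    intro chosen hch _ hcov hd
    unfold dfs at hd
    have h1 : masks4.filter (fun m => decide (P m)) = masks4.filter (fun m => chosen.contains m) := by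
      apply List.filter_congr
      intro m hm
      rw [Bool.eq_iff_iff, decide_eq_true_iff, List.contains_iff_mem]
      constructor
      · intro hP
        have h2 := List.all_eq_true.1 cover_triple m hm
        rw [List.any_eq_true] at h2
        obtain ⟨t, ht, htm⟩ := h2
        rcases hcov t ht with h3 | ⟨c, hc, htc⟩
        · exact absurd h3 List.not_mem_nil
        · have h4 := hch c hc
          rw [huniq t ht m hm c h4.1 htm htc hP h4.2]
          exact hc
      · intro hm'
        exact (hch m hm').2
    rw [h1]
    exact List.contains_iff_mem.1 hd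
  | cons t rest ih =>
    intro chosen hch hrest hcov hd
    unfold dfs at hd
    by_cases hany : chosen.any (sub t) = true
    · rw [if_pos hany] at hd
      refine ih chosen hch (fun t' ht' => hrest t' (List.mem_cons_of_mem _ ht')) ?_ hd
      intro t' ht'
      rcases hcov t' ht' with h1 | h1
      · rcases List.mem_cons.1 h1 with rfl | h1
        · right
          rw [List.any_eq_true] at hany
          exact hany
        · exact Or.inl h1
      · exact Or.inr h1
    · rw [if_neg hany] at hd
      have htt : t ∈ triples := hrest t List.mem_cons_self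
      obtain ⟨m0, hm0, hsub0, hP0⟩ := hex t htt
      have h1 := List.all_eq_true.1 hd m0 hm0
      rw [hsub0, Bool.not_true, Bool.false_or, Bool.or_eq_true] at h1
      rcases h1 with h1 | h1
      · exfalso
        rw [List.any_eq_true] at h1
        obtain ⟨c, hc, hcl⟩ := h1
        unfold clash at hcl
        rw [List.any_eq_true] at hcl
        obtain ⟨t', ht', hcl⟩ := hcl
        rw [Bool.and_eq_true] at hcl
        have h2 := hch c hc
        have h3 := huniq t' ht' m0 hm0 c h2.1 hcl.1 hcl.2 hP0 h2.2
        apply hany
        rw [List.any_eq_true]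
        exact ⟨c, hc, h3 ▸ hsub0⟩
      · refine ih (m0 :: chosen) ?_ (fun t' ht' => hrest t' (List.mem_cons_of_mem _ ht')) ?_ h1
        · intro c hc
          rcases List.mem_cons.1 hc with rfl | hc
          · exact ⟨hm0, hP0⟩
          · exact hch c hc
        · intro t' ht'
          rcases hcov t' ht' with h2 | ⟨c, hc, h2⟩
          · rcases List.mem_cons.1 h2 with rfl | h2
            · exact Or.inr ⟨m0, List.mem_cons_self, hsub0⟩
            · exact Or.inl h2
          · exact Or.inr ⟨c, List.mem_cons_of_mem _ hc, h2⟩

theorem classify (P : ℕ → Prop) [DecidablePred P]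
    (hex : ∀ t ∈ triples, ∃ m ∈ masks4, sub t m = true ∧ P m)
    (huniq : ∀ t ∈ triples, ∀ m ∈ masks4, ∀ m' ∈ masks4, sub t m = true → sub t m' = true →
      P m → P m' → m = m') : masks4.filter (fun m => decide (P m)) ∈ c1 ++ c2 :=
  dfs_sound P hex huniq triples [] (fun c hc => absurd hc List.not_mem_nil) (fun _ ht => ht)
    (fun _ ht => Or.inl ht) dfs_true

/-- the bits below 8 -/
def bits8 (m : ℕ) : Finset (Fin 8) := univ.filter (fun i => Nat.testBit m i = true)

/-- the mask of a subset of `Fin 8` -/
def mask8 (A : Finset (Fin 8)) : ℕ := ∑ i ∈ A, 2 ^ (i : ℕ)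

theorem mask8_spec : ∀ A : Finset (Fin 8), bits8 (mask8 A) = A ∧
    (A.card = 4 → masks4.contains (mask8 A) = true) ∧ mask8 A < 256 := by decide +kernel

theorem masks4_spec : ∀ m ∈ masks4, (bits8 m).card = 4 ∧ mask8 (bits8 m) = m ∧
    (sw m) ∈ masks4 ∧ (bits8 m).image (Equiv.swap 0 1) = bits8 (sw m) := by decide +kernel

theorem triples_spec : ∀ t ∈ triples, (bits8 t).card = 3 ∧ t < 256 := by decide +kernel

end Pool.Agent.W24
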