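import Pool.Agent.W24.L

set_option autoImplicit false

/-! Uniqueness and existence of the Steiner system `S(5,8,24)`. -/

namespace Pool.Agent.W24

open Finset

/-- the subset of `Fin 24` with mask `m` -/
def ms (m : ℕ) : Finset (Fin 24) := univ.filter (fun i => Nat.testBit m i = true)

/-- the explicit `S(5,8,24)` -/
def std : Finset (Finset (Fin 24)) := octads.toFinset.image ms

theorem mem_ms {m : ℕ} {i : Fin 24} : i ∈ ms m ↔ Nat.testBit m i = true := by
  simp [ms]

theorem card_ms (m : ℕ) : (ms m).card = pc m := by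
  have h1 : pc m = ((range 24).filter (fun i => Nat.testBit m i = true)).card := by
    unfold pc
    rw [← List.toFinset_card_of_nodup (List.Nodup.filter _ List.nodup_range)]
    congr 1
    ext i
    simp only [List.mem_toFinset, List.mem_filter, List.mem_range, mem_filter, mem_range]
  rw [h1]
  have h2 : (ms m).image (fun i : Fin 24 => (i : ℕ)) =
      (range 24).filter (fun i => Nat.testBit m i = true) := by
    ext i
    simp only [mem_image, mem_ms, mem_filter, mem_range]
    constructor
    · rintro ⟨j, hj, rfl⟩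
      exact ⟨j.2, hj⟩
    · rintro ⟨hi, h3⟩
      exact ⟨⟨i, hi⟩, h3, rfl⟩
  rw [← h2, card_image_of_injective _ Fin.val_injective]

theorem ms_xor (a b : ℕ) : ms (Nat.xor a b) = symmDiff (ms a) (ms b) := by
  ext i
  have h3 : Nat.testBit (Nat.xor a b) i = (Nat.testBit a i ^^ Nat.testBit b i) := Nat.testBit_xor a b i
  rw [mem_symmDiff, mem_ms, mem_ms, mem_ms, h3]
  cases Nat.testBit a i <;> cases Nat.testBit b i <;> simp

theorem ms_inj {a b : ℕ} (ha : a < 2 ^ 24) (hb : b < 2 ^ 24) (h : ms a = ms b) : a = b := by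
  apply Nat.eq_of_testBit_eq
  intro i
  by_cases hi : i < 24
  · have h1 : (⟨i, hi⟩ : Fin 24) ∈ ms a ↔ (⟨i, hi⟩ : Fin 24) ∈ ms b := by rw [h]
    rw [mem_ms, mem_ms] at h1
    exact Bool.eq_iff_iff.2 h1
  · have key : ∀ c : ℕ, c < 2 ^ 24 → Nat.testBit c i = false := by
      intro c hc
      apply Nat.testBit_eq_false_of_lt
      exact lt_of_lt_of_le hc (Nat.pow_le_pow_right (by norm_num) (by omega))
    rw [key a ha, key b hb]

theorem card_std : std.card = 759 := by
  unfold std
  rw [card_image_of_injOn, List.toFinset_card_of_nodup octads_nodup, octads_len]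
  intro a ha b hb hab
  have ha' : a ∈ octads := by simpa using ha
  have hb' : b ∈ octads := by simpa using hb
  have h1 := List.all_eq_true.1 octads_lt a ha'
  have h2 := List.all_eq_true.1 octads_lt b hb'
  exact ms_inj (Nat.le_of_ble_eq_true h1) (Nat.le_of_ble_eq_true h2) hab

theorem even_symmDiff {Ω : Type*} [DecidableEq Ω] {A B C : Finset Ω} (hA : Even (A ∩ C).card)
    (hB : Even (B ∩ C).card) : Even ((symmDiff A B) ∩ C).card := by
  have h1 : (symmDiff A B) ∩ C = ((A ∩ C) \ (B ∩ C)) ∪ ((B ∩ C) \ (A ∩ C)) := by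
    ext x
    simp only [mem_inter, mem_symmDiff, mem_union, mem_sdiff]
    tauto
  have h2 : Disjoint ((A ∩ C) \ (B ∩ C)) ((B ∩ C) \ (A ∩ C)) := by
    rw [disjoint_left]
    intro x hx hy
    rw [mem_sdiff] at hx hy
    exact hx.2 hy.1
  rw [h1, card_union_of_disjoint h2]
  have h3 := card_sdiff_add_card_inter (A ∩ C) (B ∩ C)
  have h4 := card_sdiff_add_card_inter (B ∩ C) (A ∩ C)
  rw [inter_comm (B ∩ C) (A ∩ C)] at h4
  rw [Nat.even_iff] at hA hB ⊢
  omega

/-- If the basis words meet `C` evenly, so do all codewords. -/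
theorem even_enc {Ω : Type*} [DecidableEq Ω] (e : Fin 24 → Ω) (he : Function.Injective e)
    (C : Finset Ω) (c : ℕ) : ∀ (l : List ℕ) (i : ℕ), (∀ b ∈ l, Even (((ms b).image e) ∩ C).card) →
      Even (((ms (enc c i l)).image e) ∩ C).card := by
  intro l
  induction l with
  | nil =>
    intro i _
    have h1 : ms (enc c i []) = ∅ := by
      ext j
      unfold enc
      rw [mem_ms]
      simp
    rw [h1]
    simp
  | cons b l ih =>
    intro i hb
    unfold enc
    rw [ms_xor, image_symmDiff _ _ he]
    refine even_symmDiff ?_ (ih (i + 1) fun b' hb' => hb b' (List.mem_cons_of_mem _ hb'))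
    cases Nat.testBit c i
    · have h1 : ms (cond false b 0) = ∅ := by
        ext j
        rw [mem_ms]
        simp
      rw [h1]
      simp
    · exact hb b List.mem_cons_self

variable {Ω : Type*} [Fintype Ω] [DecidableEq Ω] {Bs : Finset (Finset Ω)}

/-- **Every `S(5,8,24)` is isomorphic to the explicit one.** -/
theorem exists_equiv (h : W24 Bs) : ∃ e : Fin 24 ≃ Ω, Bs = std.image (fun B => B.image e) := by
  obtain ⟨O, f, p, hf, hp, hc⟩ := exists_lab h
  have hO8 := h.card_block O hf.mem
  -- the remaining 15 points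
  set R : Finset Ω := (Oᶜ).erase p with hR
  have hRmem : ∀ {r : Ω}, r ∈ R ↔ r ≠ p ∧ r ∉ O := by
    intro r
    rw [hR, mem_erase, mem_compl]
  have hRcard : R.card = 15 := by
    rw [hR, card_erase_of_mem (mem_compl.2 hp), card_compl, h.card_pts, hO8]
  have hinjR : Set.InjOn (fun r => code Bs f p r) (R : Set Ω) := by
    intro r hr r' hr' heq
    by_contra hne
    have h1 := hRmem.1 (mem_coe.1 hr)
    have h2 := hRmem.1 (mem_coe.1 hr')
    have h3 := share_two h hf hp h1.2 h1.1 h2.2 h2.1 hne
    have h4 : code Bs f p r = code Bs f p r' := heq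
    rw [← h4] at h3
    have h5 := List.all_eq_true.1 share_self _ (hc r h1.2 h1.1)
    rw [h3] at h5
    exact absurd h5 (by decide)
  have himg : R.image (fun r => code Bs f p r) = c1.toFinset := by
    apply eq_of_subset_of_card_le
    · intro a ha
      obtain ⟨r, hr, rfl⟩ := mem_image.1 ha
      have h1 := hRmem.1 hr
      rw [List.mem_toFinset]
      exact hc r h1.2 h1.1
    · rw [card_image_of_injOn hinjR, hRcard, List.toFinset_card_of_nodup c1_nodup, c1_len]
  have hex : ∀ j : Fin 15, ∃ r : Ω, r ∈ R ∧ code Bs f p r = c1.getD j [] := by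
    intro j
    have hj : (j : ℕ) < c1.length := by
      rw [c1_len]
      exact j.2
    have h1 : c1.getD j [] ∈ R.image (fun r => code Bs f p r) := by
      rw [himg, List.mem_toFinset, List.getD_eq_getElem _ _ hj]
      exact List.getElem_mem _
    obtain ⟨r, hr, h2⟩ := mem_image.1 h1
    exact ⟨r, hr, h2⟩
  choose g hgR hgc using hex
  have hginj : Function.Injective g := by
    intro i j hij
    have h1 : c1.getD i [] = c1.getD j [] := by rw [← hgc i, ← hgc j, hij]
    have hi : (i : ℕ) < c1.length := by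
      rw [c1_len]
      exact i.2
    have hj : (j : ℕ) < c1.length := by
      rw [c1_len]
      exact j.2
    rw [List.getD_eq_getElem _ _ hi, List.getD_eq_getElem _ _ hj] at h1
    exact Fin.ext ((List.Nodup.getElem_inj_iff c1_nodup).1 h1)
  -- the labelling
  let e0 : Fin 24 → Ω := fun i => if h1 : (i : ℕ) < 8 then f ⟨i, h1⟩ else
    if h2 : (i : ℕ) = 8 then p else g ⟨(i : ℕ) - 9, by omega⟩
  have e0a : ∀ (i : Fin 24) (h1 : (i : ℕ) < 8), e0 i = f ⟨i, h1⟩ := fun i h1 => dif_pos h1
  have e0b : ∀ (i : Fin 24), (i : ℕ) = 8 → e0 i = p := by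
    intro i h1
    have h2 : ¬ (i : ℕ) < 8 := by omega
    change (if h1 : (i : ℕ) < 8 then f ⟨i, h1⟩ else _) = p
    rw [dif_neg h2, dif_pos h1]
  have e0c : ∀ (i : Fin 24) (h1 : 9 ≤ (i : ℕ)), e0 i = g ⟨(i : ℕ) - 9, by omega⟩ := by
    intro i h1
    have h2 : ¬ (i : ℕ) < 8 := by omega
    have h3 : ¬ (i : ℕ) = 8 := by omega
    change (if h1 : (i : ℕ) < 8 then f ⟨i, h1⟩ else _) = _
    rw [dif_neg h2, dif_neg h3]
  have hfO : ∀ i, f i ∈ O := by
    intro i
    rw [← hf.img]
    exact mem_image_of_mem f (mem_univ i)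
  have he0 : Function.Injective e0 := by
    intro i j hij
    rcases lt_trichotomy (i : ℕ) 8 with hi | hi | hi <;> rcases lt_trichotomy (j : ℕ) 8 with hj | hj | hj
    · rw [e0a i hi, e0a j hj] at hij
      have := hf.inj hij
      rw [Fin.mk.injEq] at this
      exact Fin.ext this
    · rw [e0a i hi, e0b j hj] at hij
      exact absurd (hij ▸ hfO _) hp
    · rw [e0a i hi, e0c j hj] at hij
      exact absurd (hij ▸ hfO _) (hRmem.1 (hgR _)).2
    · rw [e0b i hi, e0a j hj] at hij
      exact absurd (hij ▸ hfO _) hp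
    · exact Fin.ext (hi.trans hj.symm)
    · rw [e0b i hi, e0c j hj] at hij
      exact absurd hij.symm (hRmem.1 (hgR _)).1
    · rw [e0c i hi, e0a j hj] at hij
      exact absurd (hij ▸ hfO _) (hRmem.1 (hgR _)).2
    · rw [e0c i hi, e0b j hj] at hij
      exact absurd hij (hRmem.1 (hgR _)).1
    · rw [e0c i hi, e0c j hj] at hij
      have := hginj hij
      rw [Fin.mk.injEq] at this
      exact Fin.ext (by omega)
  have hbij : Function.Bijective e0 := by
    rw [Fintype.bijective_iff_injective_and_card]
    exact ⟨he0, by rw [Fintype.card_fin, h.card_pts]⟩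
  let e : Fin 24 ≃ Ω := Equiv.ofBijective e0 hbij
  have hee : ∀ i, e i = e0 i := fun i => rfl
  -- the generating octads
  have h255 : (ms 255).image e = O := by
    rw [← hf.img]
    ext x
    simp only [mem_image, mem_ms, mem_univ, true_and]
    constructor
    · rintro ⟨i, hi, rfl⟩
      have h1 := List.all_eq_true.1 bits255 (i : ℕ) (List.mem_range.2 i.2)
      rw [hi] at h1
      have h2 : (i : ℕ) < 8 := Nat.le_of_ble_eq_true (by simpa using h1)
      exact ⟨⟨i, h2⟩, by rw [hee, e0a i h2]⟩
    · rintro ⟨i, rfl⟩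
      refine ⟨⟨i, by omega⟩, ?_, ?_⟩
      · have h1 := List.all_eq_true.1 bits255 (i : ℕ) (List.mem_range.2 (by omega))
        have h2 : Nat.blt (i : ℕ) 8 = true := Nat.ble_eq_true_of_le i.2
        rw [h2] at h1
        simpa using h1
      · rw [hee, e0a _ i.2]
  have hgen : ∀ q ∈ masks4, (ms (gen q)).image e ∈ Bs := by
    intro q hq
    have hq4 := (masks4_spec q hq).1
    obtain ⟨B, ⟨hB, hSB⟩, _⟩ := h.cover _ (card_five' hf hp hq4)
    have hpB : p ∈ B := hSB (mem_insert_self _ _)
    have hsB : S8 f q ⊆ B := fun x hx => hSB (mem_insert_of_mem hx)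
    have hsub : (ms (gen q)).image e ⊆ B := by
      intro x hx
      obtain ⟨i, hi, rfl⟩ := mem_image.1 hx
      rw [mem_ms] at hi
      have h1 := List.all_eq_true.1 (List.all_eq_true.1 gen_bits q hq) (i : ℕ) (List.mem_range.2 i.2)
      rw [hi, Bool.not_true, Bool.false_or, Bool.or_eq_true, Bool.or_eq_true, Bool.and_eq_true,
        Bool.and_eq_true] at h1
      rcases h1 with ⟨h1, h2⟩ | h1 | ⟨h1, h2⟩
      · have h3 : (i : ℕ) < 8 := Nat.le_of_ble_eq_true h1
        rw [hee, e0a i h3]
        apply hsB
        apply mem_image_of_mem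
        rw [bits8, mem_filter]
        exact ⟨mem_univ _, h2⟩
      · have h3 : (i : ℕ) = 8 := by simpa using h1
        rw [hee, e0b i h3]
        exact hpB
      · have h3 : 9 ≤ (i : ℕ) := Nat.le_of_ble_eq_true h1
        have h4 := List.contains_iff_mem.1 h2
        have h5 := hgc ⟨(i : ℕ) - 9, by omega⟩
        have h6 : q ∈ code Bs f p (g ⟨(i : ℕ) - 9, by omega⟩) := by
          rw [h5]
          exact h4
        rw [code, List.mem_filter, decide_eq_true_iff] at h6
        obtain ⟨_, B', hB', hS'⟩ := h6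
        have h7 : B = B' := by
          refine eq_of_five h (card_five' hf hp hq4) hB hB' hSB ?_
          intro y hy
          rcases mem_insert.1 hy with rfl | hy
          · exact hS' (mem_insert_self _ _)
          · exact hS' (mem_insert_of_mem (mem_insert_of_mem hy))
        rw [hee, e0c i h3, h7]
        exact hS' (mem_insert_of_mem (mem_insert_self _ _))
    have hcard : ((ms (gen q)).image e).card = 8 := by
      rw [card_image_of_injective _ e.injective, card_ms]
      simpa using List.all_eq_true.1 gen_pc q hq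
    rw [eq_of_subset_of_card_le hsub (by rw [hcard, h.card_block B hB])]
    exact hB
  have hbasis : ∀ b ∈ basis, (ms b).image e ∈ Bs := by
    intro b hb
    have h1 := List.all_eq_true.1 basis_gen b hb
    rw [Bool.or_eq_true] at h1
    rcases h1 with h1 | h1
    · have h2 : b = 255 := by simpa using h1
      rw [h2, h255]
      exact hf.mem
    · rw [List.any_eq_true] at h1
      obtain ⟨q, hq, h2⟩ := h1
      have h3 : gen q = b := by simpa using h2
      rw [← h3]
      exact hgen q hq
  have hoct : ∀ m ∈ octads, (ms m).image e ∈ Bs := by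
    intro m hm
    have h8 : ((ms m).image e).card = 8 := by
      rw [card_image_of_injective _ e.injective, card_ms]
      simpa using List.all_eq_true.1 octads_pc m hm
    apply mem_of_even h h8
    intro C hC
    unfold octads at hm
    rw [List.mem_map] at hm
    obtain ⟨c, _, rfl⟩ := hm
    exact even_enc e e.injective C c basis 0 fun b hb => even_inter h (hbasis b hb) hC
  refine ⟨e, ?_⟩
  symm
  apply eq_of_subset_of_card_le
  · intro B hB
    obtain ⟨M, hM, rfl⟩ := mem_image.1 hB
    unfold std at hM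
    obtain ⟨m, hm, rfl⟩ := mem_image.1 hM
    exact hoct m (List.mem_toFinset.1 hm)
  · rw [card_image_of_injective _ (image_injective e.injective), card_std, card_blocks h]

/-- **Witt's uniqueness theorem**: two Steiner systems `S(5,8,24)` are isomorphic. -/
theorem witt_unique {Ω' : Type*} [Fintype Ω'] [DecidableEq Ω'] {Bs' : Finset (Finset Ω')}
    (h : W24 Bs) (h' : W24 Bs') : ∃ e : Ω ≃ Ω', Bs' = Bs.image (fun B => B.image e) := by
  obtain ⟨a, ha⟩ := exists_equiv h
  obtain ⟨b, hb⟩ := exists_equiv h'
  refine ⟨a.symm.trans b, ?_⟩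
  rw [ha, image_image, hb]
  apply image_congr
  intro B _
  simp only [Function.comp, image_image]
  congr 1
  funext x
  simp

end Pool.Agent.W24
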