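import Pool.Agent.W24.A
import Pool.Agent.W24.D

set_option autoImplicit false

/-! Labelling of an octad; the system `S(3,4,8)` of a point. -/

namespace Pool.Agent.W24

open Finset

variable {Ω : Type*} [Fintype Ω] [DecidableEq Ω] {Bs : Finset (Finset Ω)}

/-- the subset of the octad with mask `m` -/
def S8 (f : Fin 8 → Ω) (m : ℕ) : Finset Ω := (bits8 m).image f

/-- `m` belongs to the system of `r` -/
def PP (Bs : Finset (Finset Ω)) (f : Fin 8 → Ω) (p r : Ω) (m : ℕ) : Prop :=
  ∃ B ∈ Bs, insert p (insert r (S8 f m)) ⊆ B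

instance (f : Fin 8 → Ω) (p r : Ω) : DecidablePred (PP Bs f p r) := fun m => by
  unfold PP
  infer_instance

/-- the system of `r` -/
def code (Bs : Finset (Finset Ω)) (f : Fin 8 → Ω) (p r : Ω) : List ℕ :=
  masks4.filter (fun m => decide (PP Bs f p r m))

/-- the trace of a set on the labelled octad -/
def tr (f : Fin 8 → Ω) (B : Finset Ω) : Finset (Fin 8) := univ.filter (fun i => f i ∈ B)

theorem sub_bits {t m : ℕ} (h : sub t m = true) : bits8 t ⊆ bits8 m := by
  intro i hi
  unfold bits8 at hi ⊢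
  rw [mem_filter] at hi ⊢
  refine ⟨mem_univ _, ?_⟩
  have h1 : Nat.land t m = t := Nat.eq_of_beq_eq_true h
  have h2 : Nat.testBit (Nat.land t m) i = Nat.testBit t i := by rw [h1]
  have h3 : Nat.testBit (Nat.land t m) i = (Nat.testBit t i && Nat.testBit m i) := Nat.testBit_and t m i
  rw [h3, hi.2, Bool.true_and] at h2
  exact h2

theorem bits_sub {t m : ℕ} (ht : t < 256) (h : bits8 t ⊆ bits8 m) : sub t m = true := by
  unfold sub
  have h1 : Nat.land t m = t := by
    apply Nat.eq_of_testBit_eq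
    intro i
    have h3 : Nat.testBit (Nat.land t m) i = (Nat.testBit t i && Nat.testBit m i) := Nat.testBit_and t m i
    rw [h3]
    by_cases hi : i < 8
    · by_cases hti : Nat.testBit t i = true
      · have h4 : (⟨i, hi⟩ : Fin 8) ∈ bits8 t := by
          unfold bits8
          rw [mem_filter]
          exact ⟨mem_univ _, hti⟩
        have h5 := h h4
        unfold bits8 at h5
        rw [mem_filter] at h5
        rw [hti, Bool.true_and]
        exact h5.2
      · rw [Bool.not_eq_true] at hti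
        rw [hti, Bool.false_and]
    · have h4 : Nat.testBit t i = false := by
        apply Nat.testBit_eq_false_of_lt
        refine lt_of_lt_of_le ht ?_
        calc 256 = 2 ^ 8 := by norm_num
          _ ≤ 2 ^ i := Nat.pow_le_pow_right (by norm_num) (by omega)
      rw [h4, Bool.false_and]
  rw [h1]
  exact Nat.beq_refl t

/-- `f` labels the octad `O`. -/
structure Lab (Bs : Finset (Finset Ω)) (O : Finset Ω) (f : Fin 8 → Ω) : Prop where
  mem : O ∈ Bs
  inj : Function.Injective f
  img : univ.image f = O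

theorem tr_image {O : Finset Ω} {f : Fin 8 → Ω} (hf : Lab Bs O f) (B : Finset Ω) :
    (tr f B).image f = O ∩ B := by
  ext x
  simp only [tr, mem_image, mem_filter, mem_univ, true_and, mem_inter, ← hf.img]
  constructor
  · rintro ⟨i, hi, rfl⟩
    exact ⟨⟨i, rfl⟩, hi⟩
  · rintro ⟨⟨i, rfl⟩, hx⟩
    exact ⟨i, hx, rfl⟩

theorem tr_card {O : Finset Ω} {f : Fin 8 → Ω} (hf : Lab Bs O f) (B : Finset Ω) :
    (tr f B).card = (O ∩ B).card := by
  rw [← tr_image hf B, card_image_of_injective _ hf.inj]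

theorem S8_sub {O : Finset Ω} {f : Fin 8 → Ω} (hf : Lab Bs O f) (m : ℕ) : S8 f m ⊆ O := by
  rw [← hf.img]
  exact image_subset_image (subset_univ _)

theorem S8_card {O : Finset Ω} {f : Fin 8 → Ω} (hf : Lab Bs O f) (m : ℕ) :
    (S8 f m).card = (bits8 m).card := card_image_of_injective _ hf.inj

theorem S8_sub_iff {O : Finset Ω} {f : Fin 8 → Ω} (m : ℕ) (B : Finset Ω) :
    S8 f m ⊆ B ↔ bits8 m ⊆ tr f B := by
  constructor
  · intro h i hi
    rw [tr, mem_filter]
    exact ⟨mem_univ _, h (mem_image_of_mem f hi)⟩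
  · intro h x hx
    obtain ⟨i, hi, rfl⟩ := mem_image.1 hx
    have h1 := h hi
    rw [tr, mem_filter] at h1
    exact h1.2

/-- A block `≠ O` that meets the octad in at least three points meets it in four points. -/
theorem four (h : W24 Bs) {O B : Finset Ω} (hO : O ∈ Bs) (hB : B ∈ Bs) {p : Ω} (hp : p ∉ O)
    (hpB : p ∈ B) (h3 : 3 ≤ (O ∩ B).card) : (O ∩ B).card = 4 := by
  have hne : O ≠ B := by
    rintro rfl
    exact hp hpB
  have h5 := inter_le h hO hB hne
  have h6 := even_inter h hO hB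
  rcases Nat.even_iff.1 h6 with h7
  omega

theorem card_five {O : Finset Ω} {f : Fin 8 → Ω} (hf : Lab Bs O f) {p r : Ω} (hp : p ∉ O)
    (hr : r ∉ O) (hpr : r ≠ p) {t : ℕ} (ht : (bits8 t).card = 3) :
    (insert p (insert r (S8 f t))).card = 5 := by
  have h1 := S8_sub hf t
  rw [card_insert_of_notMem, card_insert_of_notMem, S8_card hf, ht]
  · exact fun h => hr (h1 h)
  · rw [mem_insert, not_or]
    exact ⟨fun h => hpr h.symm, fun h => hp (h1 h)⟩

theorem card_five' {O : Finset Ω} {f : Fin 8 → Ω} (hf : Lab Bs O f) {p : Ω} (hp : p ∉ O)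
    {m : ℕ} (hm : (bits8 m).card = 4) : (insert p (S8 f m)).card = 5 := by
  have h1 := S8_sub hf m
  rw [card_insert_of_notMem, S8_card hf, hm]
  exact fun h => hp (h1 h)

theorem bits_eq_tr (h : W24 Bs) {O : Finset Ω} {f : Fin 8 → Ω} (hf : Lab Bs O f) {p : Ω}
    (hp : p ∉ O) {B : Finset Ω} (hB : B ∈ Bs) (hpB : p ∈ B) {m : ℕ} (hm : m ∈ masks4)
    (hs : S8 f m ⊆ B) : bits8 m = tr f B ∧ (O ∩ B).card = 4 := by
  have h1 := (S8_sub_iff (O := O) m B).1 hs
  have h2 := (masks4_spec m hm).1
  have h3 : 4 ≤ (O ∩ B).card := by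
    rw [← tr_card hf B, ← h2]
    exact card_le_card h1
  have h4 := four h hf.mem hB hp hpB (by omega)
  refine ⟨eq_of_subset_of_card_le h1 ?_, h4⟩
  rw [tr_card hf B, h4, h2]

theorem mask_of_block (h : W24 Bs) {O : Finset Ω} {f : Fin 8 → Ω} (hf : Lab Bs O f) {p : Ω}
    (hp : p ∉ O) {B : Finset Ω} (hB : B ∈ Bs) (hpB : p ∈ B) (h3 : 3 ≤ (O ∩ B).card) :
    mask8 (tr f B) ∈ masks4 ∧ bits8 (mask8 (tr f B)) = tr f B ∧ S8 f (mask8 (tr f B)) ⊆ B := by
  have h4 := four h hf.mem hB hp hpB h3
  obtain ⟨h5, h6, _⟩ := mask8_spec (tr f B)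
  have h7 := List.contains_iff_mem.1 (h6 (by rw [tr_card hf B, h4]))
  refine ⟨h7, h5, ?_⟩
  rw [S8_sub_iff (O := O), h5]

theorem code_mem (h : W24 Bs) {O : Finset Ω} {f : Fin 8 → Ω} (hf : Lab Bs O f) {p r : Ω}
    (hp : p ∉ O) (hr : r ∉ O) (hpr : r ≠ p) : code Bs f p r ∈ c1 ++ c2 := by
  unfold code
  apply classify
  · intro t ht
    obtain ⟨ht3, ht8⟩ := triples_spec t ht
    obtain ⟨B, ⟨hB, hSB⟩, _⟩ := h.cover _ (card_five hf hp hr hpr ht3)
    have hpB : p ∈ B := hSB (mem_insert_self _ _)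
    have hrB : r ∈ B := hSB (mem_insert_of_mem (mem_insert_self _ _))
    have hsB : S8 f t ⊆ B := fun x hx => hSB (mem_insert_of_mem (mem_insert_of_mem hx))
    have h1 := (S8_sub_iff (O := O) t B).1 hsB
    have h3 : 3 ≤ (O ∩ B).card := by
      rw [← tr_card hf B, ← ht3]
      exact card_le_card h1
    obtain ⟨h4, h5, h6⟩ := mask_of_block h hf hp hB hpB h3
    refine ⟨_, h4, bits_sub ht8 (by rw [h5]; exact h1), B, hB, ?_⟩
    exact insert_subset hpB (insert_subset hrB h6)
  · intro t ht m hm m' hm' htm htm' hP hP'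
    obtain ⟨B, hB, hSB⟩ := hP
    obtain ⟨B', hB', hSB'⟩ := hP'
    obtain ⟨ht3, ht8⟩ := triples_spec t ht
    have key : ∀ {C : Finset Ω} {n : ℕ}, insert p (insert r (S8 f n)) ⊆ C → sub t n = true →
        insert p (insert r (S8 f t)) ⊆ C := by
      intro C n hC hn
      refine (insert_subset_insert p (insert_subset_insert r ?_)).trans hC
      exact image_subset_image (sub_bits hn)
    have hBB : B = B' := eq_of_five h (card_five hf hp hr hpr ht3) hB hB' (key hSB htm) (key hSB' htm')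
    subst hBB
    have hpB : p ∈ B := hSB (mem_insert_self _ _)
    have e1 := bits_eq_tr h hf hp hB hpB hm (fun x hx => hSB (mem_insert_of_mem (mem_insert_of_mem hx)))
    have e2 := bits_eq_tr h hf hp hB hpB hm' (fun x hx => hSB' (mem_insert_of_mem (mem_insert_of_mem hx)))
    rw [← (masks4_spec m hm).2.1, ← (masks4_spec m' hm').2.1, e1.1, e2.1]

/-- The systems of two points have exactly two blocks in common. -/
theorem share_two (h : W24 Bs) {O : Finset Ω} {f : Fin 8 → Ω} (hf : Lab Bs O f) {p r r' : Ω}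
    (hp : p ∉ O) (hr : r ∉ O) (hpr : r ≠ p) (hr' : r' ∉ O) (hpr' : r' ≠ p) (hrr : r ≠ r') :
    share (code Bs f p r) (code Bs f p r') = 2 := by
  have hP : ({p, r, r'} : Finset Ω).card = 3 := by
    rw [card_eq_three]
    exact ⟨p, r, r', hpr.symm, hpr'.symm, hrr, rfl⟩
  have hdis : Disjoint ({p, r, r'} : Finset Ω) O := by
    rw [disjoint_left]
    intro x hx
    simp only [mem_insert, mem_singleton] at hx
    rcases hx with rfl | rfl | rfl
    · exact hp
    · exact hr
    · exact hr'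
  rw [← two_blocks h hf.mem hP hdis]
  have e1 : share (code Bs f p r) (code Bs f p r') =
      (masks4.filter (fun m => decide (PP Bs f p r m ∧ PP Bs f p r' m))).length := by
    unfold share code
    rw [List.filter_filter]
    congr 1
    apply List.filter_congr
    intro m hm
    rw [Bool.eq_iff_iff, Bool.and_eq_true, List.contains_iff_mem, List.mem_filter,
      decide_eq_true_iff, decide_eq_true_iff, decide_eq_true_iff]
    tauto
  have e2 : (masks4.filter (fun m => decide (PP Bs f p r m ∧ PP Bs f p r' m))).length =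
      (masks4.toFinset.filter (fun m => PP Bs f p r m ∧ PP Bs f p r' m)).card := by
    rw [← List.toFinset_card_of_nodup (masks4_nodup.filter _)]
    congr 1
    ext m
    simp only [List.mem_toFinset, List.mem_filter, decide_eq_true_iff, mem_filter]
  rw [e1, e2]
  symm
  refine card_bij (fun C _ => mask8 (tr f C)) ?_ ?_ ?_
  · intro C hC
    rw [mem_filter, mem_filter] at hC
    obtain ⟨⟨hC, hPC⟩, hc4⟩ := hC
    have hpC : p ∈ C := hPC (by simp)
    have hrC : r ∈ C := hPC (by simp)
    have hrC' : r' ∈ C := hPC (by simp)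
    obtain ⟨h4, h5, h6⟩ := mask_of_block h hf hp hC hpC (by omega)
    rw [mem_filter, List.mem_toFinset]
    exact ⟨h4, ⟨C, hC, insert_subset hpC (insert_subset hrC h6)⟩,
      ⟨C, hC, insert_subset hpC (insert_subset hrC' h6)⟩⟩
  · intro C hC C' hC' heq
    rw [mem_filter, mem_filter] at hC hC'
    obtain ⟨⟨hC, hPC⟩, hc4⟩ := hC
    obtain ⟨⟨hC', hPC'⟩, hc4'⟩ := hC'
    have hpC : p ∈ C := hPC (by simp)
    have hpC' : p ∈ C' := hPC' (by simp)
    obtain ⟨h4, h5, h6⟩ := mask_of_block h hf hp hC hpC (by omega)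
    obtain ⟨h4', h5', h6'⟩ := mask_of_block h hf hp hC' hpC' (by omega)
    have heq' : mask8 (tr f C) = mask8 (tr f C') := heq
    rw [← heq'] at h6'
    exact eq_of_five h (card_five' hf hp (masks4_spec _ h4).1) hC hC' (insert_subset hpC h6)
      (insert_subset hpC' h6')
  · intro m hm
    rw [mem_filter, List.mem_toFinset] at hm
    obtain ⟨hm, ⟨B, hB, hSB⟩, ⟨B', hB', hSB'⟩⟩ := hm
    have hpB : p ∈ B := hSB (mem_insert_self _ _)
    have hsB : S8 f m ⊆ B := fun x hx => hSB (mem_insert_of_mem (mem_insert_of_mem hx))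
    have hpB' : p ∈ B' := hSB' (mem_insert_self _ _)
    have hsB' : S8 f m ⊆ B' := fun x hx => hSB' (mem_insert_of_mem (mem_insert_of_mem hx))
    have hBB : B = B' := eq_of_five h (card_five' hf hp (masks4_spec m hm).1) hB hB'
      (insert_subset hpB hsB) (insert_subset hpB' hsB')
    subst hBB
    have hrB : r ∈ B := hSB (mem_insert_of_mem (mem_insert_self _ _))
    have hrB' : r' ∈ B := hSB' (mem_insert_of_mem (mem_insert_self _ _))
    obtain ⟨e3, e4⟩ := bits_eq_tr h hf hp hB hpB hm hsB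
    refine ⟨B, ?_, ?_⟩
    · rw [mem_filter, mem_filter]
      refine ⟨⟨hB, ?_⟩, e4⟩
      intro x hx
      simp only [mem_insert, mem_singleton] at hx
      rcases hx with rfl | rfl | rfl
      · exact hpB
      · exact hrB
      · exact hrB'
    · rw [← e3]
      exact (masks4_spec m hm).2.1

theorem same_class1 (h : W24 Bs) {O : Finset Ω} {f : Fin 8 → Ω} (hf : Lab Bs O f) {p r r' : Ω}
    (hp : p ∉ O) (hr : r ∉ O) (hpr : r ≠ p) (hr' : r' ∉ O) (hpr' : r' ≠ p)
    (hc : code Bs f p r ∈ c1) : code Bs f p r' ∈ c1 := by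
  by_cases hrr : r = r'
  · rw [← hrr]
    exact hc
  have h1 := share_two h hf hp hr hpr hr' hpr' hrr
  have h2 := code_mem h hf hp hr' hpr'
  rcases List.mem_append.1 h2 with h2 | h2
  · exact h2
  · exfalso
    have h3 := List.all_eq_true.1 (List.all_eq_true.1 share_ne _ hc) _ h2
    rw [Bool.and_eq_true, h1] at h3
    exact absurd h3.1 (by decide)

theorem same_class2 (h : W24 Bs) {O : Finset Ω} {f : Fin 8 → Ω} (hf : Lab Bs O f) {p r r' : Ω}
    (hp : p ∉ O) (hr : r ∉ O) (hpr : r ≠ p) (hr' : r' ∉ O) (hpr' : r' ≠ p)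
    (hc : code Bs f p r ∈ c2) : code Bs f p r' ∈ c2 := by
  by_cases hrr : r = r'
  · rw [← hrr]
    exact hc
  have h1 := share_two h hf hp hr' hpr' hr hpr (fun e => hrr e.symm)
  have h2 := code_mem h hf hp hr' hpr'
  rcases List.mem_append.1 h2 with h2 | h2
  · exfalso
    have h3 := List.all_eq_true.1 (List.all_eq_true.1 share_ne _ h2) _ hc
    rw [Bool.and_eq_true, h1] at h3
    exact absurd h3.1 (by decide)
  · exact h2

/-- exchange of two labels -/
theorem swap_code {O : Finset Ω} {f : Fin 8 → Ω} (hf : Lab Bs O f) {p r : Ω}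
    (hc : code Bs f p r ∈ c2) : code Bs (f ∘ Equiv.swap 0 1) p r ∈ c1 := by
  have h1 := List.all_eq_true.1 sw_class _ hc
  have h2 := List.contains_iff_mem.1 h1
  have h3 : code Bs (f ∘ Equiv.swap 0 1) p r =
      masks4.filter (fun m => (code Bs f p r).contains (sw m)) := by
    unfold code
    apply List.filter_congr
    intro m hm
    obtain ⟨_, _, hsw, hbits⟩ := masks4_spec m hm
    rw [Bool.eq_iff_iff, decide_eq_true_iff, List.contains_iff_mem, List.mem_filter,
      decide_eq_true_iff]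
    have h4 : S8 (f ∘ Equiv.swap 0 1) m = S8 f (sw m) := by
      unfold S8
      rw [← hbits, image_image]
    constructor
    · rintro ⟨B, hB, hS⟩
      rw [h4] at hS
      exact ⟨hsw, B, hB, hS⟩
    · rintro ⟨_, B, hB, hS⟩
      rw [← h4] at hS
      exact ⟨B, hB, hS⟩
  rw [h3]
  exact h2

theorem lab_swap {O : Finset Ω} {f : Fin 8 → Ω} (hf : Lab Bs O f) :
    Lab Bs O (f ∘ Equiv.swap 0 1) := by
  refine ⟨hf.mem, hf.inj.comp (Equiv.injective _), ?_⟩
  rw [← image_image, image_univ_equiv, hf.img]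

/-- A labelling of an octad for which all systems are in the first class. -/
theorem exists_lab (h : W24 Bs) : ∃ (O : Finset Ω) (f : Fin 8 → Ω) (p : Ω), Lab Bs O f ∧ p ∉ O ∧
    ∀ r, r ∉ O → r ≠ p → code Bs f p r ∈ c1 := by
  have hne : Bs.Nonempty := by
    rw [← card_pos, card_blocks h]
    norm_num
  obtain ⟨O, hO⟩ := hne
  have hO8 := h.card_block O hO
  have e : Fin 8 ≃ O := Fintype.equivOfCardEq (by rw [Fintype.card_fin, Fintype.card_coe, hO8])
  have hf : Lab Bs O (fun i => (e i : Ω)) := by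
    refine ⟨hO, fun i j hij => e.injective (Subtype.ext hij), ?_⟩
    ext x
    simp only [mem_image, mem_univ, true_and]
    constructor
    · rintro ⟨i, rfl⟩
      exact (e i).2
    · intro hx
      exact ⟨e.symm ⟨x, hx⟩, by simp⟩
  have hcard : (Oᶜ).card = 16 := by
    rw [card_compl, h.card_pts, hO8]
  have h2 : 1 < (Oᶜ).card := by omega
  obtain ⟨p, hp, r, hr, hpr⟩ := one_lt_card.1 h2
  rw [mem_compl] at hp hr
  rcases List.mem_append.1 (code_mem h hf hp hr (fun e => hpr e.symm)) with h3 | h3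
  · exact ⟨O, _, p, hf, hp, fun r' hr' hpr' =>
      same_class1 h hf hp hr (fun e => hpr e.symm) hr' hpr' h3⟩
  · exact ⟨O, _, p, lab_swap hf, hp, fun r' hr' hpr' => swap_code hf
      (same_class2 h hf hp hr (fun e => hpr e.symm) hr' hpr' h3)⟩

end Pool.Agent.W24
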